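import Pool.Agent.N805.VP.Base

/-! # Project VP, leaf HOL: forgetting one point -/

set_option autoImplicit false

open MeasureTheory Set Filter Topology
open Pool.Agent.N805.VP

namespace Pool.Agent.N99.VP

/-- forgetting one point, pointwise -/
lemma hol_card (J : Finset ℕ) (x : ℕ → ℝ) (m : ℕ) (c : Fin (m + 1) → Set ℝ) (W : Set ℝ)
    (hc : ∀ i, c i ⊆ W) (i : Fin (m + 1)) (t : ℝ) :
    (tup J x c t).card ≤ (tup J x (fun j : Fin m => c (i.succAbove j)) t).card * cnt J x W t := by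
  classical
  unfold cnt
  rw [← Finset.card_product]
  refine Finset.card_le_card_of_injOn (fun j => (fun l => j (i.succAbove l), j i)) ?_ ?_
  · intro j hj
    have hj' := mem_tup.1 (Finset.mem_coe.1 hj)
    refine Finset.mem_coe.2 (Finset.mem_product.2 ⟨mem_tup.2 ⟨?_, ?_, ?_⟩, Finset.mem_filter.2
      ⟨hj'.1 i, hc i (hj'.2.2 i)⟩⟩)
    · intro l
      exact hj'.1 _
    · intro l l' h
      exact Fin.succAbove_right_injective (hj'.2.1 h)
    · intro l
      exact hj'.2.2 _
  · intro j _ j' _ h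
    have h1 := congrArg Prod.fst h
    have h2 := congrArg Prod.snd h
    simp only at h1 h2
    funext l
    rcases Fin.eq_self_or_eq_succAbove i l with hl | ⟨l', hl⟩
    · rw [hl]
      exact h2
    · rw [hl]
      exact congrFun h1 l'

lemma hol_real (A N : ℕ) (m p : ℕ) (K : ℝ) (hK : 0 < K) (hA : A ≤ N ^ m) :
    (A * N : ℝ) ≤ K * A + K⁻¹ ^ p * (N : ℝ) ^ ((m + 1) * (p + 1)) := by
  have hpos : 0 ≤ K⁻¹ ^ p * (N : ℝ) ^ ((m + 1) * (p + 1)) := by positivity
  rcases Nat.eq_zero_or_pos A with h0 | h0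
  · subst h0
    simpa using hpos
  have hA1 : (1 : ℝ) ≤ A := by exact_mod_cast h0
  by_cases hc : (A * N : ℝ) ≤ K
  · nlinarith
  · push Not at hc
    have hA' : (A : ℝ) ≤ (N : ℝ) ^ m := by exact_mod_cast hA
    have hN0 : (0 : ℝ) ≤ N := Nat.cast_nonneg _
    have h1 : (A * N : ℝ) ≤ (N : ℝ) ^ (m + 1) := by
      rw [pow_succ]
      exact mul_le_mul_of_nonneg_right hA' hN0
    have h2 : (A * N : ℝ) ^ (p + 1) ≤ (N : ℝ) ^ ((m + 1) * (p + 1)) := by
      rw [pow_mul]
      exact pow_le_pow_left₀ (by positivity) h1 _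
    have h3 : (1 : ℝ) ≤ K⁻¹ ^ p * (A * N : ℝ) ^ p := by
      rw [← mul_pow]
      refine one_le_pow₀ ?_
      rw [inv_mul_eq_div, one_le_div hK]
      exact hc.le
    have h4 : (A * N : ℝ) ≤ K⁻¹ ^ p * (A * N : ℝ) ^ (p + 1) := by
      rw [pow_succ, ← mul_assoc]
      exact le_mul_of_one_le_left (by positivity) h3
    have h5 : K⁻¹ ^ p * (A * N : ℝ) ^ (p + 1) ≤ K⁻¹ ^ p * (N : ℝ) ^ ((m + 1) * (p + 1)) :=
      mul_le_mul_of_nonneg_left h2 (by positivity)
    have h6 : 0 ≤ K * A := by positivity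
    linarith

/-- forgetting one point -/
theorem HOL : Pool.Agent.N805.VP.S_HOL := by
  intro J x m c W hm hc hW hb i K hK p
  obtain ⟨b, hb⟩ := hb
  have i1 : Integrable fun t => ((tup J x c t).card : ℝ) :=
    int_tup (by omega) (fun l => (hc l).1) ⟨b, fun l => (hc l).2.trans hb⟩
  have i2 : Integrable fun t => ((tup J x (fun j : Fin m => c (i.succAbove j)) t).card : ℝ) :=
    int_tup hm (fun l => (hc _).1) ⟨b, fun l => (hc _).2.trans hb⟩
  have i3 : Integrable fun t => (cnt J x W t : ℝ) ^ ((m + 1) * (p + 1)) :=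
    int_cnt hW ⟨b, hb⟩ (fun n => (n : ℝ) ^ ((m + 1) * (p + 1))) (by simp)
  unfold mom
  rw [← integral_const_mul, ← integral_const_mul, ← integral_add (i2.const_mul K)
    (i3.const_mul _)]
  refine integral_mono i1 ((i2.const_mul K).add (i3.const_mul _)) fun t => ?_
  have h1 := hol_card J x m c W (fun l => (hc l).2) i t
  have h2 := hol_real (tup J x (fun j : Fin m => c (i.succAbove j)) t).card (cnt J x W t) m p K hK
    (tup_le_pow (fun l => (hc _).2) t)
  have h3 : ((tup J x c t).card : ℝ) ≤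
      ((tup J x (fun j : Fin m => c (i.succAbove j)) t).card : ℝ) * (cnt J x W t : ℝ) := by
    exact_mod_cast h1
  exact h3.trans h2

end Pool.Agent.N99.VP
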